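import Pool.Agent.helper35.Tight.T6a

set_option linter.all false

namespace Pool.Agent.helper11.Tight

open Finset

/-- the statement of mod:T6b -/
def FJ' {V : Type*} [Fintype V] [DecidableEq V] (S T : Finset V) (E1 σ0 d j : ℕ)
    (H : SimpleGraph V) : Prop :=
  eo H S T = j ∧ eo H (S ∪ T) (S ∪ T) ≤ E1 + 2 * j ∧ S2 H S T ≤ σ0 + 6 * d * j

theorem num_le_fam {M d : ℕ} (P : SimpleGraph (Fin M) → Prop) : num M d P ≤ (fam M d).card :=
  num_le_card P

/-- mod:T6c, from the statement of mod:T6b -/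
theorem bad_bi_of {A s c d M β : ℕ} (h : Par A s c d M β)
    (step : ∀ (S T : Finset (Fin M)), S.card = β → T.card = β → Disjoint S T →
      ∀ E1 σ0 j : ℕ, 128 * E1 ≤ β * c ^ 2 → 16 * d * σ0 ≤ β ^ 2 → 16 * j ≤ β * c →
      num M d (FJ' S T E1 σ0 d j) * (β ^ 2 * d ^ 2) ≤
        4 * ((j + 1) * (M * d)) * num M d (FJ' S T E1 σ0 d (j + 1))) :
    10 * num M d (fun H => I1 H β c ∧ I2 H β c ∧ ¬ Bi H β) ≤ (fam M d).card := by
  classical
  have hA := h.hA
  have hc := h.hc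
  have hs := h.hs
  have hc0 : 0 < c := by rw [hc]; positivity
  have hs4 : 8 + 16 * s * (3 * A + 1) ≤ c := by nlinarith
  have hs18 : 10 ≤ s := by
    by_contra hcon
    push Not at hcon
    have h1 : c ≤ 2 ^ 9 := by rw [hc]; exact Nat.pow_le_pow_right (by norm_num) (by omega)
    have h2 : 1000 ≤ 1000 * (A + 1) * (s + 1) := by nlinarith
    omega
  have hβ0 : 0 < β := by rw [h.hβ]; positivity
  have hd0 : 0 < d := by rw [h.hd]; positivity
  have hMc : M * c = β * d := by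
    rw [h.hM, h.hβ, h.hd, ← pow_succ, ← pow_add]
    congr 1
    ring
  -- J = β c / 16
  obtain ⟨c', hc'⟩ : ∃ c', c = 16 * c' := by
    refine ⟨2 ^ (s - 4), ?_⟩
    rw [hc, show (16 : ℕ) = 2 ^ 4 by norm_num, ← pow_add]
    congr 1
    omega
  obtain ⟨c'', hc''⟩ : ∃ c'', c ^ 2 = 128 * c'' := by
    refine ⟨2 ^ (2 * s - 7), ?_⟩
    rw [hc, show (128 : ℕ) = 2 ^ 7 by norm_num, ← pow_add, ← pow_mul]
    congr 1
    omega
  set J := β * c' with hJ
  have hJ16 : 16 * J = β * c := by rw [hJ, hc']; ring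
  set E1 := β * c'' with hE1
  have hE128 : 128 * E1 = β * c ^ 2 := by rw [hE1, hc'']; ring
  set σ0 := β ^ 2 / (16 * d) with hσ0
  have hσ : 16 * d * σ0 ≤ β ^ 2 := Nat.mul_div_le _ _
  -- the ratio
  have ratio : ∀ (S T : Finset (Fin M)), S.card = β → T.card = β → Disjoint S T →
      ∀ i, i < J → 4 * num M d (FJ' S T E1 σ0 d i) ≤ num M d (FJ' S T E1 σ0 d (i + 1)) := by
    intro S T hS hT hST i hi
    have h1 := step S T hS hT hST E1 σ0 i hE128.le hσ (by rw [← hJ16]; omega)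
    have h2 : 16 * ((i + 1) * (M * d)) ≤ β ^ 2 * d ^ 2 := by
      calc 16 * ((i + 1) * (M * d)) = (16 * (i + 1)) * (M * d) := by ring
        _ ≤ (16 * J) * (M * d) := Nat.mul_le_mul_right _ (by omega)
        _ = β * (M * c) * d := by rw [hJ16]; ring
        _ = β ^ 2 * d ^ 2 := by rw [hMc]; ring
    have h3 : 0 < β ^ 2 * d ^ 2 := by positivity
    refine Nat.le_of_mul_le_mul_left ?_ h3
    calc β ^ 2 * d ^ 2 * (4 * num M d (FJ' S T E1 σ0 d i))
        = 4 * (num M d (FJ' S T E1 σ0 d i) * (β ^ 2 * d ^ 2)) := by ring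
      _ ≤ 4 * (4 * ((i + 1) * (M * d)) * num M d (FJ' S T E1 σ0 d (i + 1))) :=
          Nat.mul_le_mul_left _ h1
      _ = (16 * ((i + 1) * (M * d))) * num M d (FJ' S T E1 σ0 d (i + 1)) := by ring
      _ ≤ _ := Nat.mul_le_mul_right _ h2
  have pow4 : ∀ (S T : Finset (Fin M)), S.card = β → T.card = β → Disjoint S T →
      num M d (FJ' S T E1 σ0 d 0) * 4 ^ J ≤ (fam M d).card := by
    intro S T hS hT hST
    have h1 : ∀ i, i ≤ J → num M d (FJ' S T E1 σ0 d 0) * 4 ^ i ≤ num M d (FJ' S T E1 σ0 d i) := by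
      intro i
      induction i with
      | zero => intro _; simp
      | succ i ih =>
        intro hi
        have h2 := ratio S T hS hT hST i (by omega)
        have h3 := ih (by omega)
        calc num M d (FJ' S T E1 σ0 d 0) * 4 ^ (i + 1)
            = 4 * (num M d (FJ' S T E1 σ0 d 0) * 4 ^ i) := by ring
          _ ≤ 4 * num M d (FJ' S T E1 σ0 d i) := Nat.mul_le_mul_left _ h3
          _ ≤ _ := h2
    exact (h1 J le_rfl).trans (num_le_card _)
  -- the union bound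
  set PP : Finset (Finset (Fin M) × Finset (Fin M)) :=
    ((powersetCard β univ) ×ˢ (powersetCard β univ)).filter (fun p => Disjoint p.1 p.2) with hPP
  have hmem : ∀ p ∈ PP, p.1.card = β ∧ p.2.card = β ∧ Disjoint p.1 p.2 := by
    intro p hp
    rw [hPP, mem_filter, mem_product, mem_powersetCard, mem_powersetCard] at hp
    exact ⟨hp.1.1.2, hp.1.2.2, hp.2⟩
  have hPPcard : PP.card ≤ M ^ (2 * β) := by
    calc PP.card ≤ ((powersetCard β (univ : Finset (Fin M))) ×ˢ (powersetCard β univ)).card :=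
          card_filter_le _ _
      _ = (M.choose β) * (M.choose β) := by
          rw [card_product, card_powersetCard, card_univ, Fintype.card_fin]
      _ ≤ M ^ β * M ^ β := Nat.mul_le_mul (Nat.choose_le_pow _ _) (Nat.choose_le_pow _ _)
      _ = M ^ (2 * β) := by rw [← pow_add]; congr 1; ring
  have hmono : num M d (fun H => I1 H β c ∧ I2 H β c ∧ ¬ Bi H β) ≤
      num M d (fun H => ∃ p ∈ PP, FJ' p.1 p.2 E1 σ0 d 0 H) := by
    refine num_mono fun H hH hP => ?_
    obtain ⟨g1, g2, g3⟩ := hP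
    unfold Bi at g3
    push Not at g3
    obtain ⟨A', B', hdis, hA', hB', hno⟩ := g3
    obtain ⟨S, hSA, hS⟩ := exists_subset_card_eq hA'
    obtain ⟨T, hTB, hT⟩ := exists_subset_card_eq hB'
    have hST : Disjoint S T := disjoint_of_subset_left hSA (disjoint_of_subset_right hTB hdis)
    refine ⟨(S, T), ?_, ?_, ?_, ?_⟩
    · rw [hPP, mem_filter, mem_product, mem_powersetCard, mem_powersetCard]
      exact ⟨⟨⟨subset_univ _, hS⟩, ⟨subset_univ _, hT⟩⟩, hST⟩
    · show eo H S T = 0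
      unfold eo
      rw [card_eq_zero, filter_eq_empty_iff]
      rintro ⟨x, y⟩ hxy
      rw [mem_product] at hxy
      exact hno x (hSA hxy.1) y (hTB hxy.2)
    · show eo H (S ∪ T) (S ∪ T) ≤ E1 + 2 * 0
      have h5 := g1 (S ∪ T) (by rw [card_union_of_disjoint hST]; omega)
      rw [card_union_of_disjoint hST, hS, hT] at h5
      have h6 : (β + β) * c ^ 2 = 2 * (128 * E1) := by rw [hE128]; ring
      rw [h6] at h5
      omega
    · show S2 H S T ≤ σ0 + 6 * d * 0
      have h5 := S2_init h hH g1 g2 hS hT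
      rw [mul_zero, add_zero, hσ0, Nat.le_div_iff_mul_le (by positivity)]
      rw [mul_comm]; exact h5
  have hsum : num M d (fun H => ∃ p ∈ PP, FJ' p.1 p.2 E1 σ0 d 0 H) * 4 ^ J
      ≤ M ^ (2 * β) * (fam M d).card := by
    calc _ ≤ (∑ p ∈ PP, num M d (FJ' p.1 p.2 E1 σ0 d 0)) * 4 ^ J :=
          Nat.mul_le_mul_right _ (num_exists _ _)
      _ = ∑ p ∈ PP, num M d (FJ' p.1 p.2 E1 σ0 d 0) * 4 ^ J := by rw [sum_mul]
      _ ≤ ∑ p ∈ PP, (fam M d).card := by
          refine sum_le_sum fun p hp => ?_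
          obtain ⟨k1, k2, k3⟩ := hmem p hp
          exact pow4 p.1 p.2 k1 k2 k3
      _ = PP.card * (fam M d).card := by rw [sum_const, smul_eq_mul]
      _ ≤ _ := Nat.mul_le_mul_right _ hPPcard
  have hnum : 10 * M ^ (2 * β) ≤ 4 ^ J := by
    have e1 : M ^ (2 * β) = 2 ^ (s * (3 * A + 1) * (2 * β)) := by
      rw [h.hM, hc, ← pow_mul, ← pow_mul]
      congr 1
      ring
    have e2 : 4 ^ J = 2 ^ (2 * J) := by rw [show (4 : ℕ) = 2 ^ 2 by norm_num, ← pow_mul]
    have e3 : 10 ≤ 2 ^ (4 * β) := by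
      calc 10 ≤ 2 ^ (4 * 1) := by norm_num
        _ ≤ 2 ^ (4 * β) := Nat.pow_le_pow_right (by norm_num) (by omega)
    rw [e1, e2]
    calc 10 * 2 ^ (s * (3 * A + 1) * (2 * β)) ≤ 2 ^ (4 * β) * 2 ^ (s * (3 * A + 1) * (2 * β)) :=
          Nat.mul_le_mul_right _ e3
      _ = 2 ^ (4 * β + s * (3 * A + 1) * (2 * β)) := (pow_add _ _ _).symm
      _ ≤ 2 ^ (2 * J) := by
          refine Nat.pow_le_pow_right (by norm_num) ?_
          have hs5 : 32 + 16 * s * (3 * A + 1) ≤ c := by nlinarith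
          have e4 : 8 * (4 * β + s * (3 * A + 1) * (2 * β)) ≤ 16 * J := by
            rw [hJ16]
            calc 8 * (4 * β + s * (3 * A + 1) * (2 * β)) = β * (32 + 16 * s * (3 * A + 1)) := by ring
              _ ≤ β * c := Nat.mul_le_mul_left _ hs5
          omega
  have hfin : (10 * num M d (fun H => I1 H β c ∧ I2 H β c ∧ ¬ Bi H β)) * 4 ^ J
      ≤ (fam M d).card * 4 ^ J := by
    calc (10 * num M d (fun H => I1 H β c ∧ I2 H β c ∧ ¬ Bi H β)) * 4 ^ J
        ≤ (10 * num M d (fun H => ∃ p ∈ PP, FJ' p.1 p.2 E1 σ0 d 0 H)) * 4 ^ J :=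
          Nat.mul_le_mul_right _ (Nat.mul_le_mul_left _ hmono)
      _ = 10 * (num M d (fun H => ∃ p ∈ PP, FJ' p.1 p.2 E1 σ0 d 0 H) * 4 ^ J) := by ring
      _ ≤ 10 * (M ^ (2 * β) * (fam M d).card) := Nat.mul_le_mul_left _ hsum
      _ = (10 * M ^ (2 * β)) * (fam M d).card := by ring
      _ ≤ 4 ^ J * (fam M d).card := Nat.mul_le_mul_right _ hnum
      _ = _ := mul_comm _ _
  exact Nat.le_of_mul_le_mul_right hfin (by positivity)

end Pool.Agent.helper11.Tight
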