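import Pool.Agent.helper11.Tight.Defs

set_option linter.all false

namespace Pool.Agent.helper11.Tight

open Finset

section
variable {V : Type*} [Fintype V] [DecidableEq V]

theorem sum_deg_eq_eo (H : SimpleGraph V) (S W : Finset V) :
    ∑ w ∈ W, (nb H w ∩ S).card = eo H S W := by
  classical
  unfold eo
  rw [Finset.card_filter, Finset.sum_product_right]
  refine sum_congr rfl fun w _ => ?_
  rw [← Finset.card_filter]
  congr 1
  ext x
  simp only [mem_inter, mem_nb, mem_filter]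
  rw [H.adj_comm]
  tauto

theorem eo_univ {H : SimpleGraph V} {d : ℕ} (hH : Base H d) (S : Finset V) :
    eo H S univ = S.card * d := by
  classical
  unfold eo
  rw [Finset.card_filter, Finset.sum_product]
  rw [← smul_eq_mul, ← Finset.sum_const]
  refine sum_congr rfl fun w _ => ?_
  rw [← Finset.card_filter, ← hH.reg w]
  rfl

theorem deg_le {H : SimpleGraph V} {d : ℕ} (hH : Base H d) (S : Finset V) (w : V) :
    (nb H w ∩ S).card ≤ d := by
  rw [← hH.reg w]
  exact card_le_card inter_subset_left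

theorem half_S2 {H : SimpleGraph V} {d β c : ℕ} (hH : Base H d) (h1 : I1 H β c) (h2 : I2 H β c)
    {S : Finset V} (hS : S.card = β) :
    256 * ∑ w : V, (nb H w ∩ S).card ^ 2 ≤ 6 * (β * d * c ^ 2) := by
  classical
  set D : V → ℕ := fun w => (nb H w ∩ S).card with hD
  have hDd : ∀ w, D w ≤ d := deg_le hH S
  -- three parts
  set A1 : Finset V := univ.filter (fun w => 64 * D w ≤ c ^ 2) with hA1
  set W : Finset V := univ.filter (fun w => ¬ 64 * D w ≤ c ^ 2 ∧ w ∉ S) with hW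
  have hsub : (univ : Finset V) ⊆ A1 ∪ (W ∪ S) := by
    intro w _
    simp only [mem_union, hA1, hW, mem_filter, mem_univ, true_and]
    tauto
  have e0 : ∑ w : V, D w ^ 2 ≤ ∑ w ∈ A1, D w ^ 2 + (∑ w ∈ W, D w ^ 2 + ∑ w ∈ S, D w ^ 2) := by
    calc ∑ w : V, D w ^ 2 ≤ ∑ w ∈ A1 ∪ (W ∪ S), D w ^ 2 :=
          sum_le_sum_of_subset hsub
      _ ≤ ∑ w ∈ A1, D w ^ 2 + ∑ w ∈ W ∪ S, D w ^ 2 := by
          have := sum_union_inter (s₁ := A1) (s₂ := W ∪ S) (f := fun w => D w ^ 2)
          omega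
      _ ≤ _ := by
          have := sum_union_inter (s₁ := W) (s₂ := S) (f := fun w => D w ^ 2)
          omega
  have p1 : 64 * ∑ w ∈ A1, D w ^ 2 ≤ c ^ 2 * (β * d) := by
    calc 64 * ∑ w ∈ A1, D w ^ 2 = ∑ w ∈ A1, (64 * D w) * D w := by
          rw [mul_sum]; refine sum_congr rfl fun w _ => ?_; ring
      _ ≤ ∑ w ∈ A1, c ^ 2 * D w :=
          sum_le_sum fun w hw => Nat.mul_le_mul_right _ (mem_filter.mp hw).2
      _ ≤ ∑ w : V, c ^ 2 * D w := sum_le_sum_of_subset (subset_univ _)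
      _ = c ^ 2 * (β * d) := by
          rw [← mul_sum, sum_deg_eq_eo, eo_univ hH, hS]
  have p2 : ∀ U : Finset V, ∑ w ∈ U, D w ^ 2 ≤ d * eo H S U := by
    intro U
    calc ∑ w ∈ U, D w ^ 2 ≤ ∑ w ∈ U, d * D w := by
          refine sum_le_sum fun w _ => ?_
          rw [pow_two]
          exact Nat.mul_le_mul_right _ (hDd w)
      _ = d * eo H S U := by rw [← mul_sum, sum_deg_eq_eo]
  have q2 : 256 * eo H S W ≤ β * c ^ 2 := by
    have hdisj : Disjoint S W := by
      rw [disjoint_left]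
      intro w hw hw'
      exact (mem_filter.mp hw').2.2 hw
    rcases h2 S W hS hdisj with h | h
    · rcases W.eq_empty_or_nonempty with h0 | h0
      · rw [h0]
        unfold eo
        simp
      · exfalso
        have : W.card * c ^ 2 < 64 * eo H S W := by
          rw [← sum_deg_eq_eo, mul_sum, ← smul_eq_mul, ← sum_const]
          exact sum_lt_sum_of_nonempty h0 fun w hw => not_le.mp (mem_filter.mp hw).2.1
        omega
    · exact h
  have q3 : 256 * eo H S S ≤ β * c ^ 2 := by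
    have := h1 S (by omega)
    rwa [hS] at this
  have r2 := p2 W
  have r3 := p2 S
  have s2 : 256 * ∑ w ∈ W, D w ^ 2 ≤ d * (β * c ^ 2) := by
    calc 256 * ∑ w ∈ W, D w ^ 2 ≤ 256 * (d * eo H S W) := Nat.mul_le_mul_left _ r2
      _ = d * (256 * eo H S W) := by ring
      _ ≤ _ := Nat.mul_le_mul_left _ q2
  have s3 : 256 * ∑ w ∈ S, D w ^ 2 ≤ d * (β * c ^ 2) := by
    calc 256 * ∑ w ∈ S, D w ^ 2 ≤ 256 * (d * eo H S S) := Nat.mul_le_mul_left _ r3
      _ = d * (256 * eo H S S) := by ring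
      _ ≤ _ := Nat.mul_le_mul_left _ q3
  have e1 : d * (β * c ^ 2) = β * d * c ^ 2 := by ring
  have e2 : c ^ 2 * (β * d) = β * d * c ^ 2 := by ring
  rw [e1] at s2 s3
  rw [e2] at p1
  change 256 * ∑ w : V, D w ^ 2 ≤ _
  omega

end

/-- mod:T6a -/
theorem S2_init {A s c d M β : ℕ} (h : Par A s c d M β) {H : SimpleGraph (Fin M)}
    (hH : Base H d) (h1 : I1 H β c) (h2 : I2 H β c) {S T : Finset (Fin M)}
    (hS : S.card = β) (hT : T.card = β) : 16 * d * S2 H S T ≤ β ^ 2 := by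
  have a1 := half_S2 hH h1 h2 hS
  have a2 := half_S2 hH h1 h2 hT
  have e : S2 H S T = ∑ w, (nb H w ∩ S).card ^ 2 + ∑ w, (nb H w ∩ T).card ^ 2 := by
    unfold S2
    rw [sum_add_distrib]
  have a3 : 256 * S2 H S T ≤ 12 * (β * d * c ^ 2) := by
    rw [e]; omega
  have hβ : β = d ^ 2 * c ^ 2 := by
    rw [h.hβ, h.hd, ← pow_mul, ← pow_add]
    congr 1
    ring
  have a4 : 16 * (16 * d * S2 H S T) ≤ 12 * β ^ 2 := by
    calc 16 * (16 * d * S2 H S T) = d * (256 * S2 H S T) := by ring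
      _ ≤ d * (12 * (β * d * c ^ 2)) := Nat.mul_le_mul_left _ a3
      _ = 12 * (β * (d ^ 2 * c ^ 2)) := by ring
      _ = 12 * β ^ 2 := by rw [← hβ]; ring
  omega

end Pool.Agent.helper11.Tight
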